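import Mathlib

/-!
# The `(x, y)` edge-removal process ends at an `(x, y)` task-dependency graph with high probability

Proof by a supermartingale: as long as there are fewer than `x` initial vertices the process removes
the out-edges of every vertex `a` in an exchangeable way, so that the proportion of the out-edges of
`a` which go to one of the first `x` vertices is a supermartingale. If the process stops with fewer
than `x` initial vertices one of these proportions is `1`.
-/

open Finset Filter Topology

namespace Pool.Agent.Results.MP_f59edb_pr.EdgeRemoval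

variable {n : ℕ}

/-- The number of initial vertices (in-degree `0`) of the graph on `Fin n` with edge set `E`. -/
def ini (E : Finset (Fin n × Fin n)) : ℕ := (univ.filter fun v => ∀ u, (u, v) ∉ E).card

/-- The number of terminal vertices (out-degree `0`). -/
def ter (E : Finset (Fin n × Fin n)) : ℕ := (univ.filter fun v => ∀ w, (v, w) ∉ E).card

/-- The edges whose removal leaves at most `x` initial and at most `y` terminal vertices. -/
def removable (x y : ℕ) (E : Finset (Fin n × Fin n)) : Finset (Fin n × Fin n) :=
  E.filter fun e => ini (E.erase e) ≤ x ∧ ter (E.erase e) ≤ y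

/-- The expected value of `f (final graph)` for the process started at `E`: while there is a
removable edge, one of the removable edges, chosen uniformly at random, is removed. -/
noncomputable def ex (x y : ℕ) (f : Finset (Fin n × Fin n) → ℝ) (E : Finset (Fin n × Fin n)) : ℝ :=
  if removable x y E = ∅ then f E
  else (∑ e : {e // e ∈ removable x y E}, ex x y f (E.erase e)) / (removable x y E).card
termination_by E.card
decreasing_by exact Finset.card_erase_lt_of_mem (mem_of_mem_filter e.1 e.2)

/-- The complete task-dependency graph on `n` vertices. -/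
def complete (n : ℕ) : Finset (Fin n × Fin n) := univ.filter fun e => e.1 < e.2

/-- The probability that the `(x, y)` edge-removal process on `n` vertices stops at a graph with
exactly `x` initial and exactly `y` terminal vertices. -/
noncomputable def r (x y n : ℕ) : ℝ :=
  ex x y (fun E => if ini E = x ∧ ter E = y then 1 else 0) (complete n)

lemma ex_stop {x y : ℕ} {f : Finset (Fin n × Fin n) → ℝ} {E : Finset (Fin n × Fin n)}
    (h : removable x y E = ∅) : ex x y f E = f E := by
  rw [ex, if_pos h]

lemma ex_step {x y : ℕ} {f : Finset (Fin n × Fin n) → ℝ} {E : Finset (Fin n × Fin n)}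
    (h : removable x y E ≠ ∅) :
    ex x y f E = (∑ e ∈ removable x y E, ex x y f (E.erase e)) / (removable x y E).card := by
  rw [ex, if_neg h, ← Finset.sum_coe_sort (removable x y E) (fun e => ex x y f (E.erase e))]

lemma ex_ge {x y : ℕ} {f Ψ : Finset (Fin n × Fin n) → ℝ} (P : Finset (Fin n × Fin n) → Prop)
    (hP : ∀ E, P E → ∀ e ∈ removable x y E, P (E.erase e))
    (h1 : ∀ E, P E → removable x y E = ∅ → Ψ E ≤ f E)
    (h2 : ∀ E, P E → removable x y E ≠ ∅ →
      (removable x y E).card * Ψ E ≤ ∑ e ∈ removable x y E, Ψ (E.erase e)) :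
    ∀ E, P E → Ψ E ≤ ex x y f E := by
  intro E
  induction hk : E.card using Nat.strong_induction_on generalizing E with
  | _ k ih =>
    intro hE
    by_cases h : removable x y E = ∅
    · rw [ex_stop h]; exact h1 E hE h
    · rw [ex_step h]
      have hc : (0 : ℝ) < (removable x y E).card := by
        exact_mod_cast Finset.card_pos.mpr (Finset.nonempty_iff_ne_empty.mpr h)
      rw [le_div_iff₀ hc, mul_comm]
      refine (h2 E hE h).trans (Finset.sum_le_sum fun e he => ?_)
      have hmem : e ∈ E := mem_of_mem_filter e he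
      exact ih (E.erase e).card (by rw [← hk]; exact Finset.card_erase_lt_of_mem hmem) _ rfl
        (hP E hE e he)

lemma ex_le_one {x y : ℕ} {f : Finset (Fin n × Fin n) → ℝ} (hf : ∀ E, f E ≤ 1) :
    ∀ E, ex x y f E ≤ 1 := by
  intro E
  induction hk : E.card using Nat.strong_induction_on generalizing E with
  | _ k ih =>
    by_cases h : removable x y E = ∅
    · rw [ex_stop h]; exact hf E
    · rw [ex_step h]
      have hc : (0 : ℝ) < (removable x y E).card := by
        exact_mod_cast Finset.card_pos.mpr (Finset.nonempty_iff_ne_empty.mpr h)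
      rw [div_le_one hc]
      calc ∑ e ∈ removable x y E, ex x y f (E.erase e) ≤ ∑ e ∈ removable x y E, (1 : ℝ) := by
            refine Finset.sum_le_sum fun e he => ?_
            have hmem : e ∈ E := mem_of_mem_filter e he
            exact ih (E.erase e).card (by rw [← hk]; exact Finset.card_erase_lt_of_mem hmem) _ rfl
        _ = (removable x y E).card := by simp

/-! ### Proportions -/

/-- the proportion of the elements of the class `v` of `E` which satisfy `T` -/
noncomputable def ratio {α V : Type} [DecidableEq α] [DecidableEq V] (src : α → V) (T : α → Prop)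
    [DecidablePred T] (E : Finset α) (v : V) : ℝ :=
  ((E.filter fun e => src e = v ∧ T e).card : ℝ) / (E.filter fun e => src e = v).card

lemma ratio_nonneg {α V : Type} [DecidableEq α] [DecidableEq V] (src : α → V) (T : α → Prop)
    [DecidablePred T] (E : Finset α) (v : V) : 0 ≤ ratio src T E v := by
  unfold ratio; positivity

lemma ratio_erase_sum {α V : Type} [DecidableEq α] [DecidableEq V] (src : α → V) (T : α → Prop)
    [DecidablePred T] (E R : Finset α) (hR : R ⊆ E) (v : V)
    (hall : ∀ e ∈ R, src e = v → ∀ e' ∈ E, src e' = v → e' ∈ R) :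
    ∑ e ∈ R, ratio src T (E.erase e) v ≤ R.card * ratio src T E v := by
  rw [← Finset.sum_filter_add_sum_filter_not R (fun e => src e = v)]
  have hother : ∑ e ∈ R.filter (fun e => ¬ src e = v), ratio src T (E.erase e) v =
      (R.filter (fun e => ¬ src e = v)).card * ratio src T E v := by
    rw [← nsmul_eq_mul, ← Finset.sum_const]
    apply Finset.sum_congr rfl
    intro e he
    have hne : ¬ src e = v := (mem_filter.mp he).2
    have e1 : (E.erase e).filter (fun e => src e = v ∧ T e) =
        E.filter (fun e => src e = v ∧ T e) := by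
      ext e'
      simp only [mem_filter, mem_erase]
      constructor
      · rintro ⟨⟨_, h⟩, h'⟩; exact ⟨h, h'⟩
      · rintro ⟨h, h', h''⟩
        exact ⟨⟨by rintro rfl; exact hne h', h⟩, h', h''⟩
    have e2 : (E.erase e).filter (fun e => src e = v) = E.filter (fun e => src e = v) := by
      ext e'
      simp only [mem_filter, mem_erase]
      constructor
      · rintro ⟨⟨_, h⟩, h'⟩; exact ⟨h, h'⟩
      · rintro ⟨h, h'⟩
        exact ⟨⟨by rintro rfl; exact hne h', h⟩, h'⟩
    rw [ratio, e1, e2, ratio]
  have hcard : (R.card : ℝ) = (R.filter (fun e => src e = v)).card +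
      (R.filter (fun e => ¬ src e = v)).card := by
    exact_mod_cast (Finset.card_filter_add_card_filter_not (s := R) (fun e => src e = v)).symm
  rw [hother, hcard, add_mul]
  apply add_le_add_left
  rcases (R.filter (fun e => src e = v)).eq_empty_or_nonempty with hemp | ⟨e₀, he₀⟩
  · rw [hemp]; simp
  · have hfull : R.filter (fun e => src e = v) = E.filter (fun e => src e = v) := by
      ext e'
      simp only [mem_filter]
      constructor
      · rintro ⟨h, h'⟩; exact ⟨hR h, h'⟩
      · rintro ⟨h, h'⟩
        exact ⟨hall e₀ (mem_filter.mp he₀).1 (mem_filter.mp he₀).2 e' h h', h'⟩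
    rw [hfull]
    set D := E.filter (fun e => src e = v) with hD
    set W := E.filter (fun e => src e = v ∧ T e) with hW
    have hWD : W ⊆ D := by
      intro e he
      rw [hW, mem_filter] at he
      rw [hD, mem_filter]
      exact ⟨he.1, he.2.1⟩
    have hterm : ∀ e ∈ D, ratio src T (E.erase e) v =
        ((W.card : ℝ) - (if e ∈ W then 1 else 0)) / ((D.card : ℝ) - 1) := by
      intro e he
      have e1 : (E.erase e).filter (fun e => src e = v ∧ T e) = W.erase e := by
        ext e'; simp only [hW, mem_filter, mem_erase]; tauto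
      have e2 : (E.erase e).filter (fun e => src e = v) = D.erase e := by
        ext e'; simp only [hD, mem_filter, mem_erase]; tauto
      rw [ratio, e1, e2, Finset.card_erase_of_mem he, Nat.cast_sub (Finset.card_pos.mpr ⟨e, he⟩)]
      by_cases h : e ∈ W
      · rw [if_pos h, Finset.card_erase_of_mem h, Nat.cast_sub (Finset.card_pos.mpr ⟨e, h⟩)]
        simp
      · rw [if_neg h, Finset.erase_eq_of_notMem h]
        simp
    rw [Finset.sum_congr rfl hterm, ← Finset.sum_div, Finset.sum_sub_distrib, Finset.sum_const,
      nsmul_eq_mul]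
    have hsum : ∑ e ∈ D, (if e ∈ W then (1 : ℝ) else 0) = W.card := by
      rw [Finset.sum_boole]
      congr 2
      ext e'
      rw [mem_filter]
      exact ⟨fun h => h.2, fun h => ⟨hWD h, h⟩⟩
    rw [hsum]
    have hDpos : 0 < D.card := Finset.card_pos.mpr ⟨e₀, by rw [← hfull]; exact he₀⟩
    rw [ratio, ← hW, ← hD, mul_div_cancel₀ _ (by positivity : (D.card : ℝ) ≠ 0)]
    rcases Nat.lt_or_ge 1 D.card with h | h
    · have h' : (0 : ℝ) < (D.card : ℝ) - 1 := by
        have : (1 : ℝ) < D.card := by exact_mod_cast h
        linarith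
      rw [div_le_iff₀ h']
      nlinarith
    · have h1 : D.card = 1 := by omega
      rw [h1]; simp

lemma ratio_total {α V : Type} [DecidableEq α] [DecidableEq V] [Fintype V] (src : α → V)
    (T : α → Prop) [DecidablePred T] (E R : Finset α) (hR : R ⊆ E)
    (hall : ∀ e ∈ R, ∀ e' ∈ E, src e' = src e → e' ∈ R) :
    ∑ e ∈ R, ∑ v, ratio src T (E.erase e) v ≤ R.card * ∑ v, ratio src T E v := by
  rw [Finset.sum_comm, Finset.mul_sum]
  apply Finset.sum_le_sum
  intro v _
  apply ratio_erase_sum src T E R hR v
  intro e he hev e' he' hev'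
  exact hall e he e' he' (hev'.trans hev.symm)

lemma ratio_eq_one {α V : Type} [DecidableEq α] [DecidableEq V] (src : α → V) (T : α → Prop)
    [DecidablePred T] (E : Finset α) (e : α) (he : e ∈ E) (hT : T e)
    (huniq : ∀ e' ∈ E, src e' = src e → e' = e) : ratio src T E (src e) = 1 := by
  have e1 : E.filter (fun e' => src e' = src e ∧ T e') = {e} := by
    ext e'
    simp only [mem_filter, mem_singleton]
    constructor
    · rintro ⟨h, h', _⟩; exact huniq e' h h'
    · rintro rfl; exact ⟨he, rfl, hT⟩
  have e2 : E.filter (fun e' => src e' = src e) = {e} := by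
    ext e'
    simp only [mem_filter, mem_singleton]
    constructor
    · rintro ⟨h, h'⟩; exact huniq e' h h'
    · rintro rfl; exact ⟨he, rfl⟩
  rw [ratio, e1, e2]
  simp

/-! ### Initial and terminal vertices -/

lemma ini_erase_le (E : Finset (Fin n × Fin n)) (e : Fin n × Fin n) :
    ini (E.erase e) ≤ ini E + 1 := by
  unfold ini
  have h : (univ.filter fun v => ∀ u, (u, v) ∉ E.erase e) ⊆
      insert e.2 (univ.filter fun v => ∀ u, (u, v) ∉ E) := by
    intro v hv
    rw [mem_filter] at hv
    rw [mem_insert, mem_filter]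
    by_cases hve : v = e.2
    · exact Or.inl hve
    · refine Or.inr ⟨mem_univ _, fun u hu => hv.2 u ?_⟩
      rw [mem_erase]
      exact ⟨by rintro rfl; exact hve rfl, hu⟩
  exact (Finset.card_le_card h).trans (Finset.card_insert_le _ _)

lemma ter_erase_le (E : Finset (Fin n × Fin n)) (e : Fin n × Fin n) :
    ter (E.erase e) ≤ ter E + 1 := by
  unfold ter
  have h : (univ.filter fun v => ∀ w, (v, w) ∉ E.erase e) ⊆
      insert e.1 (univ.filter fun v => ∀ w, (v, w) ∉ E) := by
    intro v hv
    rw [mem_filter] at hv
    rw [mem_insert, mem_filter]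
    by_cases hve : v = e.1
    · exact Or.inl hve
    · refine Or.inr ⟨mem_univ _, fun u hu => hv.2 u ?_⟩
      rw [mem_erase]
      exact ⟨by rintro rfl; exact hve rfl, hu⟩
  exact (Finset.card_le_card h).trans (Finset.card_insert_le _ _)

lemma ini_le_erase (E : Finset (Fin n × Fin n)) (e : Fin n × Fin n) : ini E ≤ ini (E.erase e) := by
  apply Finset.card_le_card
  intro v hv
  rw [mem_filter] at hv ⊢
  exact ⟨mem_univ _, fun u hu => hv.2 u (mem_of_mem_erase hu)⟩

lemma ter_le_erase (E : Finset (Fin n × Fin n)) (e : Fin n × Fin n) : ter E ≤ ter (E.erase e) := by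
  apply Finset.card_le_card
  intro v hv
  rw [mem_filter] at hv ⊢
  exact ⟨mem_univ _, fun u hu => hv.2 u (mem_of_mem_erase hu)⟩

/-- if `e` is not the only out-edge of its source its removal makes no new terminal vertex -/
lemma ter_erase_of_other {E : Finset (Fin n × Fin n)} {e e' : Fin n × Fin n} (he' : e' ∈ E)
    (hne : e' ≠ e) (h : e'.1 = e.1) : ter (E.erase e) ≤ ter E := by
  apply Finset.card_le_card
  intro v hv
  rw [mem_filter] at hv ⊢
  refine ⟨mem_univ _, fun w hw => ?_⟩
  by_cases hvw : (v, w) = e
  · apply hv.2 e'.2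
    rw [mem_erase]
    have : (v, e'.2) = e' := by
      ext1
      · simp only; rw [h, ← hvw]
      · rfl
    rw [this]
    exact ⟨hne, he'⟩
  · exact hv.2 w (mem_erase.mpr ⟨hvw, hw⟩)

lemma ini_erase_of_other {E : Finset (Fin n × Fin n)} {e e' : Fin n × Fin n} (he' : e' ∈ E)
    (hne : e' ≠ e) (h : e'.2 = e.2) : ini (E.erase e) ≤ ini E := by
  apply Finset.card_le_card
  intro v hv
  rw [mem_filter] at hv ⊢
  refine ⟨mem_univ _, fun w hw => ?_⟩
  by_cases hvw : (w, v) = e
  · apply hv.2 e'.1
    rw [mem_erase]
    have : (e'.1, v) = e' := by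
      ext1
      · rfl
      · simp only; rw [h, ← hvw]
    rw [this]
    exact ⟨hne, he'⟩
  · exact hv.2 w (mem_erase.mpr ⟨hvw, hw⟩)

/-! ### The supermartingale -/

noncomputable def A (x : ℕ) (E : Finset (Fin n × Fin n)) : ℝ :=
  if ini E < x then ∑ v, ratio (fun e : Fin n × Fin n => e.1) (fun e => (e.2 : ℕ) < x) E v else 0

noncomputable def B (y : ℕ) (E : Finset (Fin n × Fin n)) : ℝ :=
  if ter E < y then ∑ v, ratio (fun e : Fin n × Fin n => e.2) (fun e => n ≤ (e.1 : ℕ) + y) E v
  else 0

lemma A_nonneg (x : ℕ) (E : Finset (Fin n × Fin n)) : 0 ≤ A x E := by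
  unfold A
  split_ifs
  · exact Finset.sum_nonneg fun v _ => ratio_nonneg _ _ _ _
  · exact le_refl _

lemma B_nonneg (y : ℕ) (E : Finset (Fin n × Fin n)) : 0 ≤ B y E := by
  unfold B
  split_ifs
  · exact Finset.sum_nonneg fun v _ => ratio_nonneg _ _ _ _
  · exact le_refl _

lemma A_step {x y : ℕ} {E : Finset (Fin n × Fin n)} (hy : ter E ≤ y) :
    ∑ e ∈ removable x y E, A x (E.erase e) ≤ (removable x y E).card * A x E := by
  by_cases h : ini E < x
  · have h1 : ∀ e ∈ removable x y E, A x (E.erase e) ≤
        ∑ v, ratio (fun e : Fin n × Fin n => e.1) (fun e => (e.2 : ℕ) < x) (E.erase e) v := by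
      intro e _
      unfold A
      split_ifs
      · exact le_refl _
      · exact Finset.sum_nonneg fun v _ => ratio_nonneg _ _ _ _
    refine (Finset.sum_le_sum h1).trans ?_
    rw [A, if_pos h]
    apply ratio_total _ _ _ _ (Finset.filter_subset _ _)
    intro e he e' he' hsrc
    have heE : e ∈ E := mem_of_mem_filter e he
    by_cases hee : e = e'
    · rw [← hee]; exact he
    · exact mem_filter.mpr
        ⟨he', (ini_erase_le E e').trans h, (ter_erase_of_other heE hee hsrc.symm).trans hy⟩
  · have h1 : ∀ e ∈ removable x y E, A x (E.erase e) = 0 := by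
      intro e _
      rw [A, if_neg]
      exact fun h2 => h ((ini_le_erase E e).trans_lt h2)
    rw [Finset.sum_eq_zero h1]
    exact mul_nonneg (Nat.cast_nonneg _) (A_nonneg _ _)

lemma B_step {x y : ℕ} {E : Finset (Fin n × Fin n)} (hx : ini E ≤ x) :
    ∑ e ∈ removable x y E, B y (E.erase e) ≤ (removable x y E).card * B y E := by
  by_cases h : ter E < y
  · have h1 : ∀ e ∈ removable x y E, B y (E.erase e) ≤
        ∑ v, ratio (fun e : Fin n × Fin n => e.2) (fun e => n ≤ (e.1 : ℕ) + y) (E.erase e) v := by
      intro e _
      unfold B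
      split_ifs
      · exact le_refl _
      · exact Finset.sum_nonneg fun v _ => ratio_nonneg _ _ _ _
    refine (Finset.sum_le_sum h1).trans ?_
    rw [B, if_pos h]
    apply ratio_total _ _ _ _ (Finset.filter_subset _ _)
    intro e he e' he' hsrc
    have heE : e ∈ E := mem_of_mem_filter e he
    by_cases hee : e = e'
    · rw [← hee]; exact he
    · exact mem_filter.mpr
        ⟨he', (ini_erase_of_other heE hee hsrc.symm).trans hx, (ter_erase_le E e').trans h⟩
  · have h1 : ∀ e ∈ removable x y E, B y (E.erase e) = 0 := by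
      intro e _
      rw [B, if_neg]
      exact fun h2 => h ((ter_le_erase E e).trans_lt h2)
    rw [Finset.sum_eq_zero h1]
    exact mul_nonneg (Nat.cast_nonneg _) (B_nonneg _ _)

lemma stop {x y : ℕ} (hxn : x < n) (hyn : y < n) {E : Finset (Fin n × Fin n)}
    (hx : ini E ≤ x) (hy : ter E ≤ y) (hstop : removable x y E = ∅) :
    1 - (A x E + B y E) ≤ if ini E = x ∧ ter E = y then (1 : ℝ) else 0 := by
  have hA := A_nonneg x E
  have hB := B_nonneg y E
  by_cases h : ini E = x ∧ ter E = y
  · rw [if_pos h]; linarith
  rw [if_neg h]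
  have hnot : ∀ e ∈ E, ¬ (ini (E.erase e) ≤ x ∧ ter (E.erase e) ≤ y) := by
    intro e he hcon
    have : e ∈ removable x y E := mem_filter.mpr ⟨he, hcon⟩
    rw [hstop] at this
    simp at this
  by_cases hxi : ini E < x
  · -- some vertex among the first `x` has an in-edge
    obtain ⟨v, hvx, hv⟩ : ∃ v : Fin n, (v : ℕ) < x ∧ ∃ u, (u, v) ∈ E := by
      by_contra hcon
      push Not at hcon
      have h1 : (univ.filter fun v : Fin n => (v : ℕ) < x) ⊆
          univ.filter fun v => ∀ u, (u, v) ∉ E := by
        intro v hv
        rw [mem_filter] at hv ⊢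
        exact ⟨mem_univ _, hcon v hv.2⟩
      have h2 := Finset.card_le_card h1
      have h3 : (univ.filter fun v : Fin n => (v : ℕ) < x).card = x := by
        rw [Fin.card_filter_val_lt]
        omega
      rw [h3] at h2
      exact absurd hxi (not_lt.mpr h2)
    obtain ⟨u, hu⟩ := hv
    have h1 := hnot _ hu
    have h2 : ini (E.erase (u, v)) ≤ x := (ini_erase_le E _).trans hxi
    have h3 : ratio (fun e : Fin n × Fin n => e.1) (fun e => (e.2 : ℕ) < x) E u = 1 := by
      apply ratio_eq_one (fun e : Fin n × Fin n => e.1) (fun e => (e.2 : ℕ) < x) E (u, v) hu hvx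
      intro e' he' hsrc
      by_contra hne
      exact h1 ⟨h2, (ter_erase_of_other he' hne hsrc).trans hy⟩
    have h4 : 1 ≤ A x E := by
      rw [A, if_pos hxi, ← h3]
      exact Finset.single_le_sum (f := fun u => ratio (fun e : Fin n × Fin n => e.1)
        (fun e => (e.2 : ℕ) < x) E u) (fun v _ => ratio_nonneg _ _ _ _) (mem_univ u)
    linarith
  · have hyi : ter E < y := by
      rcases Nat.lt_or_ge (ter E) y with h1 | h1
      · exact h1
      · exact absurd ⟨by omega, by omega⟩ h
    obtain ⟨v, hvx, hv⟩ : ∃ v : Fin n, n ≤ (v : ℕ) + y ∧ ∃ w, (v, w) ∈ E := by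
      by_contra hcon
      push Not at hcon
      have h1 : (univ.filter fun v : Fin n => n ≤ (v : ℕ) + y) ⊆
          univ.filter fun v => ∀ w, (v, w) ∉ E := by
        intro v hv
        rw [mem_filter] at hv ⊢
        exact ⟨mem_univ _, hcon v hv.2⟩
      have h2 := Finset.card_le_card h1
      have h3 : (univ.filter fun v : Fin n => n ≤ (v : ℕ) + y).card = y := by
        have h4 : (univ.filter fun v : Fin n => n ≤ (v : ℕ) + y) =
            univ.filter fun v : Fin n => ¬ (v : ℕ) < n - y := by
          apply Finset.filter_congr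
          intro v _
          omega
        have h5 := Finset.card_filter_add_card_filter_not (s := (univ : Finset (Fin n)))
          (fun v : Fin n => (v : ℕ) < n - y)
        rw [Fin.card_filter_val_lt, card_univ, Fintype.card_fin] at h5
        rw [h4]
        omega
      rw [h3] at h2
      exact absurd hyi (not_lt.mpr h2)
    obtain ⟨w, hw⟩ := hv
    have h1 := hnot _ hw
    have h2 : ter (E.erase (v, w)) ≤ y := (ter_erase_le E _).trans hyi
    have h3 : ratio (fun e : Fin n × Fin n => e.2) (fun e => n ≤ (e.1 : ℕ) + y) E w = 1 := by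
      apply ratio_eq_one (fun e : Fin n × Fin n => e.2) (fun e => n ≤ (e.1 : ℕ) + y) E (v, w) hw hvx
      intro e' he' hsrc
      by_contra hne
      exact h1 ⟨(ini_erase_of_other he' hne hsrc).trans hx, h2⟩
    have h4 : 1 ≤ B y E := by
      rw [B, if_pos hyi, ← h3]
      exact Finset.single_le_sum (f := fun u => ratio (fun e : Fin n × Fin n => e.2)
        (fun e => n ≤ (e.1 : ℕ) + y) E u) (fun v _ => ratio_nonneg _ _ _ _) (mem_univ w)
    linarith

/-! ### The complete graph -/

lemma ratio_le {α V : Type} [DecidableEq α] [DecidableEq V] (src : α → V) (T : α → Prop)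
    [DecidablePred T] (E : Finset α) (v : V) (t d : ℕ) (hd : 0 < d)
    (h1 : (E.filter fun e => src e = v ∧ T e).card ≤ t)
    (h2 : d ≤ (E.filter fun e => src e = v).card) : ratio src T E v ≤ (t : ℝ) / d := by
  unfold ratio
  have h1' : ((E.filter fun e => src e = v ∧ T e).card : ℝ) ≤ t := by exact_mod_cast h1
  have h2' : (d : ℝ) ≤ (E.filter fun e => src e = v).card := by exact_mod_cast h2
  have hd' : (0 : ℝ) < d := by exact_mod_cast hd
  gcongr

lemma A_complete {x n : ℕ} (hxn : x < n) : A x (complete n) ≤ (x : ℝ) * (x / ((n - x : ℕ) : ℝ)) := by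
  unfold A
  split_ifs
  · have h1 : ∀ v : Fin n, ratio (fun e : Fin n × Fin n => e.1) (fun e => (e.2 : ℕ) < x)
        (complete n) v ≤ if (v : ℕ) < x then (x : ℝ) / ((n - x : ℕ) : ℝ) else 0 := by
      intro v
      split_ifs with hv
      · apply ratio_le _ _ _ _ _ _ (by omega)
        · have h2 : ((complete n).filter fun e => e.1 = v ∧ (e.2 : ℕ) < x) ⊆
              (univ.filter fun w : Fin n => (w : ℕ) < x).image (fun w => (v, w)) := by
            intro e he
            rw [mem_filter] at he
            rw [mem_image]
            refine ⟨e.2, mem_filter.mpr ⟨mem_univ _, he.2.2⟩, ?_⟩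
            rw [← he.2.1]
          refine (Finset.card_le_card h2).trans (Finset.card_image_le.trans ?_)
          rw [Fin.card_filter_val_lt]
          omega
        · have h2 : (univ.filter fun w : Fin n => v < w).image (fun w => (v, w)) ⊆
              ((complete n).filter fun e => e.1 = v) := by
            intro e he
            rw [mem_image] at he
            obtain ⟨w, hw, rfl⟩ := he
            rw [mem_filter] at hw
            exact mem_filter.mpr ⟨mem_filter.mpr ⟨mem_univ _, hw.2⟩, rfl⟩
          refine le_trans ?_ (Finset.card_le_card h2)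
          rw [Finset.card_image_of_injective _ (fun a b hab => (Prod.ext_iff.mp hab).2)]
          have h3 : (univ.filter fun w : Fin n => v < w) = Ioi v := by ext w; simp
          rw [h3, Fin.card_Ioi]
          omega
      · have h2 : ((complete n).filter fun e => e.1 = v ∧ (e.2 : ℕ) < x) = ∅ := by
          apply Finset.filter_eq_empty_iff.mpr
          rintro e he ⟨h3, h4⟩
          have h5 : e.1 < e.2 := (mem_filter.mp he).2
          rw [h3] at h5
          have : (v : ℕ) < e.2 := h5
          omega
        unfold ratio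
        rw [h2]
        simp
    refine (Finset.sum_le_sum fun v _ => h1 v).trans ?_
    rw [← Finset.sum_filter, Finset.sum_const, Fin.card_filter_val_lt, nsmul_eq_mul, min_eq_right hxn.le]
  · positivity

lemma B_complete {y n : ℕ} (hyn : y < n) : B y (complete n) ≤ (y : ℝ) * (y / ((n - y : ℕ) : ℝ)) := by
  unfold B
  split_ifs
  · have hcard : (univ.filter fun w : Fin n => n ≤ (w : ℕ) + y).card = y := by
      have h4 : (univ.filter fun v : Fin n => n ≤ (v : ℕ) + y) =
          univ.filter fun v : Fin n => ¬ (v : ℕ) < n - y := by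
        apply Finset.filter_congr
        intro v _
        omega
      have h5 := Finset.card_filter_add_card_filter_not (s := (univ : Finset (Fin n)))
        (fun v : Fin n => (v : ℕ) < n - y)
      rw [Fin.card_filter_val_lt, card_univ, Fintype.card_fin] at h5
      rw [h4]
      omega
    have h1 : ∀ v : Fin n, ratio (fun e : Fin n × Fin n => e.2) (fun e => n ≤ (e.1 : ℕ) + y)
        (complete n) v ≤ if n ≤ (v : ℕ) + y then (y : ℝ) / ((n - y : ℕ) : ℝ) else 0 := by
      intro v
      split_ifs with hv
      · apply ratio_le _ _ _ _ _ _ (by omega)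
        · have h2 : ((complete n).filter fun e => e.2 = v ∧ n ≤ (e.1 : ℕ) + y) ⊆
              (univ.filter fun w : Fin n => n ≤ (w : ℕ) + y).image (fun w => (w, v)) := by
            intro e he
            rw [mem_filter] at he
            rw [mem_image]
            refine ⟨e.1, mem_filter.mpr ⟨mem_univ _, he.2.2⟩, ?_⟩
            rw [← he.2.1]
          refine (Finset.card_le_card h2).trans (Finset.card_image_le.trans ?_)
          rw [hcard]
        · have h2 : (univ.filter fun w : Fin n => w < v).image (fun w => (w, v)) ⊆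
              ((complete n).filter fun e => e.2 = v) := by
            intro e he
            rw [mem_image] at he
            obtain ⟨w, hw, rfl⟩ := he
            rw [mem_filter] at hw
            exact mem_filter.mpr ⟨mem_filter.mpr ⟨mem_univ _, hw.2⟩, rfl⟩
          refine le_trans ?_ (Finset.card_le_card h2)
          rw [Finset.card_image_of_injective _ (fun a b hab => (Prod.ext_iff.mp hab).1)]
          have h3 : (univ.filter fun w : Fin n => w < v) = Iio v := by ext w; simp
          rw [h3, Fin.card_Iio]
          omega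
      · have h2 : ((complete n).filter fun e => e.2 = v ∧ n ≤ (e.1 : ℕ) + y) = ∅ := by
          apply Finset.filter_eq_empty_iff.mpr
          rintro e he ⟨h3, h4⟩
          have h5 : e.1 < e.2 := (mem_filter.mp he).2
          rw [h3] at h5
          have : (e.1 : ℕ) < v := h5
          omega
        unfold ratio
        rw [h2]
        simp
    refine (Finset.sum_le_sum fun v _ => h1 v).trans ?_
    rw [← Finset.sum_filter, Finset.sum_const, hcard, nsmul_eq_mul]
  · positivity

lemma ini_complete {n : ℕ} : ini (complete n) ≤ 1 := by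
  apply Finset.card_le_one.mpr
  intro a ha b hb
  rw [mem_filter] at ha hb
  by_contra hne
  rcases lt_or_gt_of_ne hne with h | h
  · exact hb.2 a (mem_filter.mpr ⟨mem_univ _, h⟩)
  · exact ha.2 b (mem_filter.mpr ⟨mem_univ _, h⟩)

lemma ter_complete {n : ℕ} : ter (complete n) ≤ 1 := by
  apply Finset.card_le_one.mpr
  intro a ha b hb
  rw [mem_filter] at ha hb
  by_contra hne
  rcases lt_or_gt_of_ne hne with h | h
  · exact ha.2 b (mem_filter.mpr ⟨mem_univ _, h⟩)
  · exact hb.2 a (mem_filter.mpr ⟨mem_univ _, h⟩)

lemma r_ge {x y n : ℕ} (hx : 1 ≤ x) (hy : 1 ≤ y) (hxn : x < n) (hyn : y < n) :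
    1 - ((x : ℝ) * (x / ((n - x : ℕ) : ℝ)) + (y : ℝ) * (y / ((n - y : ℕ) : ℝ))) ≤ r x y n := by
  have h1 : 1 - (A x (complete n) + B y (complete n)) ≤ r x y n := by
    refine ex_ge (Ψ := fun E => 1 - (A x E + B y E)) (fun E => ini E ≤ x ∧ ter E ≤ y) ?_ ?_ ?_ _
      ⟨ini_complete.trans hx, ter_complete.trans hy⟩
    · intro E _ e he
      exact (mem_filter.mp he).2
    · intro E hE hstop
      exact stop hxn hyn hE.1 hE.2 hstop
    · intro E hE _
      have h2 := A_step (x := x) hE.2
      have h3 := B_step (y := y) hE.1
      simp only [Finset.sum_sub_distrib, Finset.sum_add_distrib, Finset.sum_const, nsmul_eq_mul]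
      linarith
  have h2 := A_complete hxn
  have h3 := B_complete hyn
  linarith

theorem result : ∀ x y : ℕ, 1 ≤ x → 1 ≤ y → Tendsto (fun n => r x y n) atTop (𝓝 1) := by
  intro x y hx hy
  have hlim : ∀ z : ℕ, Tendsto (fun n : ℕ => (z : ℝ) * (z / ((n - z : ℕ) : ℝ))) atTop (𝓝 0) := by
    intro z
    have h1 : Tendsto (fun n : ℕ => ((n - z : ℕ) : ℝ)) atTop atTop :=
      tendsto_natCast_atTop_atTop.comp (tendsto_sub_atTop_nat z)
    have h2 := (tendsto_const_nhds (x := (z : ℝ))).div_atTop h1
    have h3 := h2.const_mul (z : ℝ)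
    rwa [mul_zero] at h3
  have h1 : Tendsto (fun n : ℕ => 1 - ((x : ℝ) * (x / ((n - x : ℕ) : ℝ)) +
      (y : ℝ) * (y / ((n - y : ℕ) : ℝ)))) atTop (𝓝 (1 - (0 + 0))) :=
    tendsto_const_nhds.sub ((hlim x).add (hlim y))
  rw [add_zero, sub_zero] at h1
  refine tendsto_of_tendsto_of_tendsto_of_le_of_le' h1 tendsto_const_nhds ?_ ?_
  · filter_upwards [eventually_gt_atTop x, eventually_gt_atTop y] with n hxn hyn
    exact r_ge hx hy hxn hyn
  · filter_upwards with n
    apply ex_le_one
    intro E
    split_ifs <;> norm_num

end Pool.Agent.Results.MP_f59edb_pr.EdgeRemoval
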